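import Mathlib
import Pool.Agent.Run7.h422.PP.AH3

/-!
# The Alternative Hypothesis along the de Bruijn-Newman heat flow

`H_t(z) = ∫_0^∞ e^{t u²} Φ(u) cos (z u) du` is the de Bruijn-Newman family: `H_0(z)` is the Riemann
function `ξ(1/2 + i z/2) / 8`, and the heights of the zeros of zeta are the numbers `Re z / 2`,
`H_0(z) = 0`. The Alternative Hypothesis (AH, the question of `MP_f0209c_nt` is to disprove it) says that the
normalised spacings of the consecutive ordinates of the zeros of zeta have distances tending to zero from the set of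
the positive half-integers. We say that a family of zeros satisfies the hypothesis of a set `S` of real numbers in density
if for all `K, ε > 0` the number of the ordered pairs of different zeros with heights in `(0, T]` and
normalised difference `D = (γ - γ') log T / (2 π)`, `|D| ≤ K`, `dist (D, S) ≥ ε`, is `o(T log T)`. The density form of AH is
the case that `S` is the set of the nonzero half-integers. Unconditionally:

(1) Let `t = t(T) ≥ 0` and `t log² T → 0`. For every set `S` the hypothesis of `S` holds in density for zeta if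
and only if it holds for `H_{t(T)}`. In particular this is true for the density form of AH.

(2) AH implies the density form of AH for zeta, hence for `H_{t(T)}`. So AH is false if for a single function
`t(T) = o(1 / log² T)` and some `K, ε, κ > 0` there are arbitrarily large `T` for which more than `κ T log T` pairs of
zeros of `H_{t(T)}` up to `T` have normalised differences in `[-K, K]` at a distance `≥ ε` from the nonzero half-integers.

(3) In contrast, the density form of AH is TRUE for `H_t` above a constant multiple of the time scale `1 / log² T`,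
and with integers instead of half-integers: for all `A, K, ε, κ > 0` there is `τ₀` such that for large `T` and
`τ₀ / log² T ≤ t ≤ A / log T` at most `κ T log T` pairs of different zeros of `H_t` up to `T` have normalised differences
in `[-K, K]` at a distance `≥ ε` from the nonzero integers (and there are at least `c T log T` zeros).

So the question (in the density form) is exactly the question at times `o(1 / log² T)`, and it changes its
answer at a constant multiple of `1 / log² T` if AH is false (in the density form).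

(1) is proved with the comparison theorem `Pool.Agent.R838.ST.cmp`, (3) with the theorem on regular
zeros `Pool.Agent.R838.CR.fin_irr` and moments of the number of zeros in short windows `Pool.Agent.R838.ST.midw`; these
are starting modules (see the docstring of the starting result `MP_cd509c_nt.HeatFlowSpacing` for their authors).
-/

set_option autoImplicit false

open Filter Topology

namespace Pool.Agent.Results.MP_f0209c_nt.HeatFlowAlternative

/-- The kernel `Φ(u) = ∑_{n ≥ 1} (2 π² n⁴ e^{9u} - 3 π n² e^{5u}) exp (-π n² e^{4u})`. -/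
noncomputable def Phi (u : ℝ) : ℝ := ∑' n : ℕ,
  (2 * Real.pi ^ 2 * ((n : ℝ) + 1) ^ 4 * Real.exp (9 * u) -
    3 * Real.pi * ((n : ℝ) + 1) ^ 2 * Real.exp (5 * u)) *
    Real.exp (-(Real.pi * ((n : ℝ) + 1) ^ 2 * Real.exp (4 * u)))

/-- The de Bruijn-Newman family `H_t(z) = ∫_0^∞ e^{t u²} Φ(u) cos (z u) du`. -/
noncomputable def H (t : ℝ) (z : ℂ) : ℂ :=
  ∫ u in Set.Ioi (0 : ℝ), ((Real.exp (t * u ^ 2) * Phi u : ℝ) : ℂ) * Complex.cos (z * u)

/-- The nontrivial zeros of zeta with multiplicity: `(ρ, i)`, `i` less than the multiplicity of `ρ`. -/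
def ZetaZeros : Set (ℂ × ℕ) :=
  {p | 0 < p.1.re ∧ p.1.re < 1 ∧ p.2 < analyticOrderNatAt riemannZeta p.1}

/-- The zeros of `H_t` with multiplicity. -/
def HZeros (t : ℝ) : Set (ℂ × ℕ) := {p | p.2 < analyticOrderNatAt (H t) p.1}

/-- The normalised spacing `γ̃ - γ̃'`, `γ̃ = γ log γ / (2 π)`, of two zeros with ordinates `γ`, `γ'`. -/
noncomputable def spacing (x y : ℂ × ℕ) : ℝ :=
  (x.1.im * Real.log x.1.im - y.1.im * Real.log y.1.im) / (2 * Real.pi)

/-- The Alternative Hypothesis: for every `ε > 0` the normalised spacing of any two consecutive zeros (with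
multiplicity: two different zeros `x`, `y` with ordinates `γ_y ≤ γ_x` and no zero with an ordinate strictly between
them) with ordinates at least `Y(ε)` is within `ε` of one of the numbers `1/2, 1, 3/2, ...`. -/
def AH : Prop := ∀ ε : ℝ, 0 < ε → ∃ Y : ℝ, ∀ x ∈ ZetaZeros, ∀ y ∈ ZetaZeros, x ≠ y →
  Y ≤ y.1.im → y.1.im ≤ x.1.im → (∀ z ∈ ZetaZeros, ¬ (y.1.im < z.1.im ∧ z.1.im < x.1.im)) →
  ∃ m : ℕ, 1 ≤ m ∧ |spacing x y - m / 2| ≤ ε

/-- The ordered pairs of different elements of `Z` with heights `h` in `(0, T]` whose normalised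
difference `D = (h x - h y) log T / (2 π)` satisfies `|D| ≤ K` and has distance at least `ε` from `S`. -/
def Off (Z : Set (ℂ × ℕ)) (h : ℂ → ℝ) (S : Set ℝ) (T K ε : ℝ) : Set ((ℂ × ℕ) × (ℂ × ℕ)) :=
  {x | (x.1 ∈ Z ∧ 0 < h x.1.1 ∧ h x.1.1 ≤ T) ∧ (x.2 ∈ Z ∧ 0 < h x.2.1 ∧ h x.2.1 ≤ T) ∧ x.1 ≠ x.2 ∧
    |(h x.1.1 - h x.2.1) * (Real.log T / (2 * Real.pi))| ≤ K ∧
    ε ≤ Metric.infDist ((h x.1.1 - h x.2.1) * (Real.log T / (2 * Real.pi))) S}

/-- The number of these pairs for the zeros of zeta; the height is the imaginary part. -/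
noncomputable def offZeta (S : Set ℝ) (T K ε : ℝ) : ℝ :=
  ((Off ZetaZeros (fun z => z.im) S T K ε).ncard : ℝ)

/-- The number of these pairs for the zeros of `H_t`; the height is half of the real part. -/
noncomputable def offH (S : Set ℝ) (t T K ε : ℝ) : ℝ :=
  ((Off (HZeros t) (fun z => z.re / 2) S T K ε).ncard : ℝ)

/-- `N(T, K, ε) = o(T log T)` for all `K, ε > 0`. -/
def Few (N : ℝ → ℝ → ℝ → ℝ) : Prop := ∀ K ε κ : ℝ, 0 < K → 0 < ε → 0 < κ →
  ∀ᶠ T : ℝ in atTop, N T K ε ≤ κ * (T * Real.log T)

/-- The nonzero half-integers. -/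
def halfIntegers : Set ℝ := {x | ∃ m : ℤ, m ≠ 0 ∧ x = m / 2}

/-- The nonzero integers. -/
def integers : Set ℝ := {x | ∃ m : ℤ, m ≠ 0 ∧ x = m}

/-- The number of zeros of `H_t` with heights in `(0, T]`. -/
noncomputable def totalH (t T : ℝ) : ℝ :=
  (({p | p ∈ HZeros t ∧ 0 < p.1.re / 2 ∧ p.1.re / 2 ≤ T} : Set (ℂ × ℕ)).ncard : ℝ)

/-- **Main theorem.** (1) Let `t(T) ≥ 0` and `t(T) log² T → 0`. For every set `S` of real numbers: almost all
pairs of zeros of zeta have normalised differences near `S` if and only if this is true for `H_{t(T)}`. If it is true for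
zeta, then for all `K, ε, κ > 0` there are `δ > 0`, `T₀` with at most `κ T log T` exceptional pairs of zeros of `H_t` for
`T ≥ T₀`, `0 ≤ t log² T ≤ δ`. (2) The Alternative Hypothesis implies this for zeta and for `H_{t(T)}`, `t(T)` as in (1),
and the set of the nonzero half-integers. (3) For all `A > 0` there is `c > 0` such that `H_t` has at least `c T log T`
zeros up to `T` for large `T` and `0 ≤ t ≤ A / log T`; for all `K, ε, κ > 0` there are `τ₀`, `T₀` such that for
`T ≥ T₀`, `τ₀ / log² T ≤ t ≤ A / log T` at most `κ T log T` pairs of zeros of `H_t` up to `T` have normalised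
differences in `[-K, K]` at a distance `≥ ε` from the nonzero INTEGERS. So the density form of the Alternative Hypothesis
is true for `H_{t(T)}` if `t(T) log² T → ∞` and `t(T) log T` is bounded. -/
theorem result :
    (∀ t : ℝ → ℝ, (∀ T, 0 ≤ t T) → Tendsto (fun T => t T * Real.log T ^ 2) atTop (𝓝 0) →
      (∀ S : Set ℝ, Few (offZeta S) ↔ Few (fun T => offH S (t T) T)) ∧
      (AH → Few (offZeta halfIntegers) ∧ Few (fun T => offH halfIntegers (t T) T))) ∧
    (∀ S : Set ℝ, Few (offZeta S) → ∀ K ε κ : ℝ, 0 < K → 0 < ε → 0 < κ →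
      ∃ δ T₀ : ℝ, 0 < δ ∧ 2 ≤ T₀ ∧ ∀ T t : ℝ, T₀ ≤ T → 0 ≤ t → t * Real.log T ^ 2 ≤ δ →
        offH S t T K ε ≤ κ * (T * Real.log T)) ∧
    (∀ A : ℝ, 0 < A →
      (∃ c T₀ : ℝ, 0 < c ∧ 2 ≤ T₀ ∧ ∀ T t : ℝ, T₀ ≤ T → 0 ≤ t → t * Real.log T ≤ A →
        c * (T * Real.log T) ≤ totalH t T) ∧
      (∀ K ε κ : ℝ, 0 < K → 0 < ε → 0 < κ →
        ∃ τ₀ T₀ : ℝ, 0 < τ₀ ∧ 2 ≤ T₀ ∧ ∀ T t : ℝ, T₀ ≤ T → τ₀ ≤ t * Real.log T ^ 2 → t * Real.log T ≤ A →
          offH integers t T K ε ≤ κ * (T * Real.log T)) ∧
      (∀ t : ℝ → ℝ, Tendsto (fun T => t T * Real.log T ^ 2) atTop atTop →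
        (∀ᶠ T in atTop, t T * Real.log T ≤ A) →
        Few (fun T => offH integers (t T) T) ∧ Few (fun T => offH halfIntegers (t T) T))) := by
  have key : ∀ t : ℝ → ℝ, (∀ T, 0 ≤ t T) → Tendsto (fun T => t T * Real.log T ^ 2) atTop (𝓝 0) →
      ∀ S : Set ℝ, Few (offZeta S) ↔ Few (fun T => offH S (t T) T) := fun t ht h2 S =>
    Run7.h422.PP.ah_iff ht h2 S
  refine ⟨fun t ht h2 => ⟨key t ht h2, fun hAH => ?_⟩, ?_, fun A hA => ⟨?_, ?_, ?_⟩⟩
  · have h3 : Few (offZeta halfIntegers) := Run7.h422.PP.ah_zeta hAH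
    exact ⟨h3, (key t ht h2 halfIntegers).1 h3⟩
  · intro S hS K ε κ hK hε hκ
    exact Run7.h422.PP.soft_small fun t ht h2 => (key t ht h2 S).1 hS K ε κ hK hε hκ
  · exact Run7.h422.PP.nh_geU hA
  · intro K ε κ hK hε hκ
    exact Run7.h422.PP.off_bigU hA hK hε hκ
  · intro t h1 h2
    have h3 : Few (fun T => offH integers (t T) T) := fun K ε κ hK hε hκ =>
      Run7.h422.PP.off_big hA h2 h1 hK hε hκ
    refine ⟨h3, fun K ε κ hK hε hκ => ?_⟩
    have ht0 : ∀ᶠ T in atTop, 0 < t T := by
      filter_upwards [h1.eventually_gt_atTop 0, eventually_gt_atTop (1 : ℝ)] with T h4 h5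
      have h6 : 0 < Real.log T ^ 2 := by have := Real.log_pos h5; positivity
      exact (pos_iff_pos_of_mul_pos h4).2 h6
    filter_upwards [h3 K ε κ hK hε hκ, ht0] with T g1 g2
    refine le_trans ?_ g1
    have hf : (Off (HZeros (t T)) (fun z => z.re / 2) integers T K ε).Finite :=
      Run7.h422.PP.op_fin (Run7.h422.PP.nh_fin g2.le T) (Run7.h422.PP.CK integers K ε)
    have h4 : (Off (HZeros (t T)) (fun z => z.re / 2) halfIntegers T K ε).ncard ≤
        (Off (HZeros (t T)) (fun z => z.re / 2) integers T K ε).ncard := by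
      refine Set.ncard_le_ncard ?_ hf
      rintro x ⟨q1, q2, q3, q4⟩
      exact ⟨q1, q2, q3, Run7.h422.PP.ck_mono q4⟩
    unfold offH
    exact_mod_cast h4

end Pool.Agent.Results.MP_f0209c_nt.HeatFlowAlternative
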