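import Pool.Agent.Run7.h911.PH8

/-!
# The Alternative Hypothesis at every size of zeta (under RH)

The zeros are sorted by the size of the zeta function around them: an ordinate `γ` has size in `(a, b)`
when the normalised size `√2 log |ζ(1/2 + it)| / √(log log t)`, which is asymptotically a standard Gaussian
variable (Selberg), lies in `(a, b)` on at least nine tenths of the window `|t - γ| ≤ 1 / log γ` (at `γ`
itself zeta vanishes). Let `d_n` be the normalised spacings and assume the Riemann hypothesis.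

(1) For every `s > 1/2` and every `a < b` a positive proportion of all indices `n` is such that both
`γ_n` and `γ_{n+1}` have size in `(a, b)` and `d_n` is away from `s ℤ`. So the spacings do not follow a
lattice hypothesis with `s > 1/2` at any size, however rare this size is. The Alternative Hypothesis
(AH) is the case `s = 1/2` of such a hypothesis.

(2) AH at one size (that is, for almost all the spacings between zeros with size in `(a, b)`) determines the
form factor `F_{a',b'}` of all smaller classes in `(1, 2)`: its integral over `[p, q]` tends to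
`G(a', b') ∫_p^q (2 - α) dα`. So any deviation from this law, for zeros of a single size, disproves AH.

(3) AH as it stands gives the law (2) for all `a' < b'`.

Idea of the proof. For the zeros of one size the form factor is `G |α|` in `(-1, 1)` (in the mean). For spacings
near `s ℤ` it is periodic with period `1/s`, which contradicts this if `1/s < 2` and gives (2) if `1/s = 2`.
The passage from pairs to consecutive zeros uses the third moment of the number of zeros in short windows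
and the slow variation of the size.
-/

set_option autoImplicit false

open MeasureTheory

namespace Pool.Agent.Results.MP_f0209c_nt.NoLatticeAtEverySize

open Pool.Agent.Results.MP_103a5c_nt.BohrSetPairs (zeros mult)

/-- the normalised size of zeta at the height `t` -/
noncomputable def size (t : ℝ) : ℝ :=
  Real.sqrt 2 * (Real.log ‖riemannZeta (1 / 2 + t * Complex.I)‖ / Real.sqrt (Real.log (Real.log t)))

/-- the window of length `2 / log y` centred at `y` -/
noncomputable def window (y : ℝ) : Set ℝ := Set.Icc (y - 1 / Real.log y) (y + 1 / Real.log y)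

/-- the ordinates of size in `(a, b)`: the size is in `(a, b)` on nine tenths of the window -/
def SizeIn (a b : ℝ) : Set ℝ :=
  {y : ℝ | 9 / 10 * (2 / Real.log y) ≤ volume.real {t : ℝ | t ∈ window y ∧ a < size t ∧ size t < b}}

/-- the standard Gaussian measure of the interval `(a, b)` -/
noncomputable def gauss (a b : ℝ) : ℝ := (ProbabilityTheory.gaussianReal 0 1).real (Set.Ioo a b)

open Classical in
/-- Montgomery's function for the zeros with ordinates `γ, γ'` in `(T, 2T]`, both of size in `(a, b)`, counted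
with multiplicity, `γ = γ'` included:
`(2π / (T log T)) ∑_γ ∑_γ' cos(α (γ - γ') log T) w(γ - γ')`, `w(u) = 4 / (4 + u²)` -/
noncomputable def F (a b α T : ℝ) : ℝ :=
  2 * Real.pi / (T * Real.log T) * ∑ᶠ s ∈ zeros T (2 * T), ∑ᶠ s' ∈ zeros T (2 * T),
    (mult s : ℝ) * (mult s' : ℝ) * (if s.im ∈ SizeIn a b ∧ s'.im ∈ SizeIn a b then
      Real.cos (α * (s.im - s'.im) * Real.log T) * (4 / (4 + (s.im - s'.im) ^ 2)) else 0)

/-- the number of nontrivial zeros of `ζ` with ordinate in `(0, t]`, with multiplicity -/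
noncomputable def NZ (t : ℝ) : ℕ :=
  ∑ᶠ s ∈ {s : ℂ | riemannZeta s = 0 ∧ 0 < s.re ∧ s.re < 1 ∧ 0 < s.im ∧ s.im ≤ t}, mult s

/-- for `n ≥ 1`: the `n`-th positive ordinate `γ n` of a nontrivial zero of `ζ`, the ordinates being
listed in nondecreasing order and repeated according to multiplicity -/
noncomputable def γ (n : ℕ) : ℝ := sInf {t : ℝ | n ≤ NZ t}

/-- the normalised spacings `d_n = (γ_{n+1} log γ_{n+1} - γ_n log γ_n) / 2π` -/
noncomputable def d (n : ℕ) : ℝ :=
  (γ (n + 1) * Real.log (γ (n + 1)) - γ n * Real.log (γ n)) / (2 * Real.pi)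

/-- the number of the `n ≤ N` with both `γ n` and `γ (n + 1)` of size in `(a, b)` and the distance of `d n`
to `s ℤ` at least `ε` -/
noncomputable def away (s ε a b : ℝ) (N : ℕ) : ℕ :=
  {n : ℕ | 1 ≤ n ∧ n ≤ N ∧ γ n ∈ SizeIn a b ∧ γ (n + 1) ∈ SizeIn a b ∧ ∀ j : ℤ, ε ≤ |d n - j * s|}.ncard

/-- the alternative hypothesis for almost all the spacings between zeros of size in `(a, b)` -/
def AHIn (a b : ℝ) : Prop := ∀ ε η : ℝ, 0 < ε → 0 < η → ∃ N₀ : ℕ, ∀ N : ℕ, N₀ ≤ N →
  (away (1 / 2) ε a b N : ℝ) ≤ η * N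

/-- the Alternative Hypothesis -/
def AH : Prop := ∀ ε : ℝ, 0 < ε → ∃ J : ℕ, ∀ n : ℕ, J ≤ n → ∃ k : ℕ, 1 ≤ k ∧ |d n - k / 2| < ε

open Classical in
lemma F_eq (a b α : ℝ) {T : ℝ} (hT : 1 ≤ T) : F a b α T = Run7.h911.PQ.FC a b α T := by
  unfold F Run7.h911.PQ.FC Run7.h911.PQ.CW
  have hpi := Real.pi_pos
  have e0 : (T * (Real.log T / (2 * Real.pi)))⁻¹ = 2 * Real.pi / (T * Real.log T) := by
    rw [mul_div_assoc', inv_div]
  rw [e0]
  congr 1
  rw [Pool.Agent.Results.MP_103a5c_nt.BohrSetPairs.zeros_eq, H370.finsum_Zf H370.good_zeta hT, Finset.sum_filter]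
  refine Finset.sum_congr rfl fun s _ => ?_
  rw [H370.finsum_Zf H370.good_zeta hT]
  have e1 : ∀ s, mult s = H370.mult riemannZeta s := fun s => rfl
  have e2 : ∀ s : ℂ, s.im ∈ SizeIn a b ↔ Run7.h911.PQ.NearO a b s.im := fun s => Iff.rfl
  by_cases h : Run7.h911.PQ.NearO a b s.im
  · rw [if_pos h, Finset.sum_filter]
    refine Finset.sum_congr rfl fun s' _ => ?_
    by_cases h' : Run7.h911.PQ.NearO a b s'.im
    · rw [if_pos h', if_pos ⟨(e2 s).2 h, (e2 s').2 h'⟩, e1, e1]
      unfold Run7.h911.PQ.ww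
      have e3 : α * (s.im - s'.im) * Real.log T = α * (Real.log T * (s.im - s'.im)) := by ring
      rw [e3]
    · rw [if_neg h', if_neg (fun hh => h' ((e2 s').1 hh.2)), mul_zero]
  · rw [if_neg h]
    refine Finset.sum_eq_zero fun s' _ => ?_
    rw [if_neg (fun hh => h ((e2 s).1 hh.1)), mul_zero]

lemma int_eq (a b p q : ℝ) {T : ℝ} (hT : 1 ≤ T) : ∫ α in p..q, F a b α T = ∫ α in p..q, Run7.h911.PQ.FC a b α T :=
  intervalIntegral.integral_congr fun α _ => F_eq a b α hT

/-- Assume the Riemann hypothesis. -/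
theorem result (RH : RiemannHypothesis) :
    -- (1) no lattice with `s > 1/2` at any size
    (∀ s : ℝ, 1 / 2 < s → ∀ a b : ℝ, a < b → ∃ ε : ℝ, 0 < ε ∧ ∃ N₀ : ℕ, ∀ N : ℕ, N₀ ≤ N →
      ε * N ≤ (away s ε a b N : ℝ)) ∧
    -- (2) the form factor under the alternative hypothesis at one size
    (∀ a b : ℝ, AHIn a b → ∀ a' b' : ℝ, a < a' → a' < b' → b' < b → ∀ p q : ℝ, 1 < p → p < q → q < 2 →
      ∀ ε : ℝ, 0 < ε → ∃ T₀ : ℝ, ∀ T : ℝ, T₀ ≤ T →
        |(∫ α in p..q, F a' b' α T) - gauss a' b' * (((2 - p) ^ 2 - (2 - q) ^ 2) / 2)| ≤ ε) ∧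
    -- (3) the alternative hypothesis at all sizes
    (AH → ∀ a b : ℝ, a < b → ∀ p q : ℝ, 1 < p → p < q → q < 2 →
      ∀ ε : ℝ, 0 < ε → ∃ T₀ : ℝ, ∀ T : ℝ, T₀ ≤ T →
        |(∫ α in p..q, F a b α T) - gauss a b * (((2 - p) ^ 2 - (2 - q) ^ 2) / 2)| ≤ ε) := by
  have e0 : ∀ a b, gauss a b = Run7.h911.SZ.G01 a b := fun a b => rfl
  have h2 : ∀ a b : ℝ, AHIn a b → ∀ a' b' : ℝ, a < a' → a' < b' → b' < b → ∀ p q : ℝ, 1 < p → p < q → q < 2 →
      ∀ ε : ℝ, 0 < ε → ∃ T₀ : ℝ, ∀ T : ℝ, T₀ ≤ T →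
        |(∫ α in p..q, F a' b' α T) - gauss a' b' * (((2 - p) ^ 2 - (2 - q) ^ 2) / 2)| ≤ ε := by
    intro a b hA a' b' ha hab hb p q hp hpq hq ε hε
    obtain ⟨T₀, h⟩ := ((Run7.h911.PQ.lat_int RH ha hb hab (fun ε η h1 h2 => hA ε η h1 h2) hp hpq hq hε).and
      (Filter.eventually_ge_atTop 1)).exists_forall_of_atTop
    refine ⟨T₀, fun T hT => ?_⟩
    obtain ⟨h1, h3⟩ := h T hT
    rw [int_eq a' b' _ _ h3, e0]
    exact h1
  refine ⟨fun s hs a b hab => ?_, h2, fun hAH a b hab => ?_⟩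
  · exact Run7.h911.PQ.nl_idx RH hs hab
  · refine h2 (a - 1) (b + 1) (fun ε η hε hη => ?_) a b (by linarith) hab (by linarith)
    obtain ⟨J, hJ⟩ := hAH ε hε
    obtain ⟨N₀, hN₀⟩ := exists_nat_gt ((J : ℝ) / η)
    refine ⟨N₀, fun N hN => ?_⟩
    have hsub : {n : ℕ | 1 ≤ n ∧ n ≤ N ∧ γ n ∈ SizeIn (a - 1) (b + 1) ∧ γ (n + 1) ∈ SizeIn (a - 1) (b + 1) ∧
        ∀ j : ℤ, ε ≤ |d n - j * (1 / 2)|} ⊆ Set.Iio J := by
      rintro n ⟨-, -, -, -, h5⟩
      by_contra hcon
      rw [Set.mem_Iio, not_lt] at hcon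
      obtain ⟨k, -, hk⟩ := hJ n hcon
      have := h5 k
      have e1 : d n - ((k : ℤ) : ℝ) * (1 / 2) = d n - k / 2 := by push_cast; ring
      rw [e1] at this
      linarith
    have h6 : (away (1 / 2) ε (a - 1) (b + 1) N : ℝ) ≤ J := by
      unfold away
      have h7 := Set.ncard_le_ncard hsub (Set.finite_Iio J)
      rw [Set.ncard_Iio_nat] at h7
      exact_mod_cast h7
    have h8 : (J : ℝ) ≤ η * N := by
      rw [div_lt_iff₀ hη] at hN₀
      have : (N₀ : ℝ) ≤ N := by exact_mod_cast hN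
      nlinarith
    linarith

end Pool.Agent.Results.MP_f0209c_nt.NoLatticeAtEverySize
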