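import Pool.Agent.Run7.h613.QP.D

/-!
Assume the Riemann hypothesis and let `s ≥ 1`.  Let `α` be any real sequence and let
`P n = e((α_0 + … + α_{n-1}) / s)`.  If the normalised spacings of the zeta zeros followed the
pattern `α` modulo `s`, then the walk `P` would describe the phases of the zeros.  We show that `P`
must have square-root fluctuations at every large scale `L` and in a positive proportion of places:
for `N` large, uniformly in `α` and in the constant `m`, either a positive proportion of the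
`n < N` start a block of length at most `L` whose sum of `P - m` exceeds `√(L / s) / 400`, or a
positive proportion of the spacings `d_j`, `j ≤ N`, stays away from `α_j + s ℤ`.

Idea of the proof.  Let `θ = 1 / s ≤ 1` and `e = 1 / L`.  If almost all the spacings were close to
`α_j + s ℤ`, then the exponential sum over nearby zeros at the frequency `θ + β` would be the sum of
`P n · e(β y_n)`.  Averaging the block sums over all the lengths up to `L` writes
`P n = m + Q (n + 1) - Q n + A n` with `|Q| ≤ √(θ L) / 400` everywhere and with `A` small outside the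
exceptional places.  Summation by parts, Plancherel's theorem and Montgomery's theorem near the
frequency `0` then bound the mean square over `β` of size `e` by a small multiple of `θ e`, whereas
Montgomery's theorem (form factor `|α|` on `(-1, 1)`) gives a multiple of `θ e`; the bound
`|Q|² = O(θ / e)` is exactly what this comparison allows.
-/

open Filter

namespace Pool.Agent.Results.MP_f0209c_nt.QuietPatterns

/-- multiplicity of `s` as a zero of the Riemann zeta function (order of vanishing at `s`) -/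
noncomputable def zmult (s : ℂ) : ℕ := analyticOrderNatAt riemannZeta s

/-- the number of nontrivial zeros of `ζ` with ordinate in `(0, t]`, with multiplicity -/
noncomputable def NZ (t : ℝ) : ℕ :=
  ∑ᶠ s ∈ {s : ℂ | riemannZeta s = 0 ∧ 0 < s.re ∧ s.re < 1 ∧ 0 < s.im ∧ s.im ≤ t}, zmult s

/-- for `j ≥ 1`: the `j`-th positive ordinate `γ j` of a nontrivial zero of `ζ`, the ordinates being
listed in nondecreasing order and repeated according to multiplicity -/
noncomputable def γ (j : ℕ) : ℝ := sInf {t : ℝ | j ≤ NZ t}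

/-- the normalised spacings `d_j = γ_{j+1} log γ_{j+1} / 2π - γ_j log γ_j / 2π` -/
noncomputable def d (j : ℕ) : ℝ :=
  (γ (j + 1) * Real.log (γ (j + 1)) - γ j * Real.log (γ j)) / (2 * Real.pi)

/-- the walk `e((α_0 + … + α_{n-1}) / s)` on the unit circle -/
noncomputable def walk (s : ℝ) (α : ℕ → ℝ) (n : ℕ) : ℂ :=
  Complex.exp (2 * Real.pi * ((∑ i ∈ Finset.range n, α i) / s : ℝ) * Complex.I)

/-- the number of `n < N` such that `|∑_{i < j} (P (n + i) - m)| > B` for some `j ≤ L` -/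
noncomputable def loud (P : ℕ → ℂ) (m : ℂ) (L : ℕ) (B : ℝ) (N : ℕ) : ℕ :=
  {n : ℕ | n < N ∧ ∃ j : ℕ, j ≤ L ∧ B < ‖∑ i ∈ Finset.range j, (P (n + i) - m)‖}.ncard

/-- the number of `1 ≤ j ≤ N` such that `|d_j - (α_j + s k)| ≥ ε` for all integers `k` -/
noncomputable def away (s : ℝ) (α : ℕ → ℝ) (ε : ℝ) (N : ℕ) : ℕ :=
  {j : ℕ | 1 ≤ j ∧ j ≤ N ∧ ∀ k : ℤ, ε ≤ |d j - (α j + s * k)|}.ncard

/-- the product over `1 ≤ j < n` of the parities of the integers nearest to `2 d_j` -/
noncomputable def sgn (n : ℕ) : ℝ := ∏ j ∈ Finset.Ico 1 n, (-1 : ℝ) ^ round (2 * d j)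

lemma loud_eq (P : ℕ → ℂ) (m : ℂ) (L : ℕ) (B : ℝ) (N : ℕ) : loud P m L B N = Run7.h613.QP.loud P m L B N := by
  classical
  unfold loud Run7.h613.QP.loud
  rw [← Set.ncard_coe_finset]
  congr 1
  ext n
  rw [Finset.coe_filter, Set.mem_setOf_eq, Set.mem_setOf_eq, Finset.mem_range]
  refine and_congr_right fun _ => ?_
  unfold Run7.h613.QP.Quiet Run7.h613.QP.BS
  push Not
  rfl

lemma main (RH : RiemannHypothesis) (s : ℝ) (hs : 1 ≤ s) : ∃ L0 : ℕ, ∀ L : ℕ, L0 ≤ L → ∃ ρ : ℝ, 0 < ρ ∧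
    ∃ N1 : ℕ, ∀ N : ℕ, N1 ≤ N → ∀ (α : ℕ → ℝ) (m : ℂ),
      ρ * N ≤ (loud (walk s α) m L (Real.sqrt (L / s) / 400) N : ℝ) ∨ ρ * N ≤ (away s α ρ N : ℝ) := by
  have hs0 : 0 < s := by linarith
  obtain ⟨L0, h⟩ := Run7.h613.QP.dichotomy RH (1 / s) (by positivity) (by
    rw [div_le_one hs0]; exact hs)
  refine ⟨L0, fun L hL => ?_⟩
  obtain ⟨ρ, hρ, N1, hN1⟩ := h L hL
  refine ⟨ρ, hρ, N1, fun N hN α m => ?_⟩
  have e1 : walk s α = fun n => H177.Lat.ee (1 / s * H177.Lat.sq α n) := by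
    funext n
    unfold walk H177.Lat.ee H177.Lat.sq
    congr 1
    push_cast
    ring
  have e2 : Real.sqrt (L / s) / 400 = Run7.h613.QP.Bd (1 / s) L := by
    unfold Run7.h613.QP.Bd
    rw [div_mul_eq_mul_div, ← Real.sqrt_mul (by positivity)]
    congr 2
    ring
  rw [loud_eq, e1, e2]
  have e3 : {j : ℕ | 1 ≤ j ∧ j ≤ N ∧ ∀ k : ℤ, ρ ≤ |d j - (α j + s * k)|} =
      {n : ℕ | 1 ≤ n ∧ n ≤ N ∧ ∀ k : ℤ, ρ ≤ |H177.Lat.del n - α n - k / (1 / s)|} := by
    ext n
    rw [Set.mem_setOf_eq, Set.mem_setOf_eq]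
    refine and_congr_right fun _ => and_congr_right fun _ => forall_congr' fun k => ?_
    have e : H177.Lat.del n - α n - k / (1 / s) = d n - (α n + s * k) := by
      rw [show H177.Lat.del n = d n from rfl, div_div_eq_mul_div, div_one]
      ring
    rw [e]
  unfold away
  rw [e3]
  exact hN1 N hN α m

lemma quiet_sequence (RH : RiemannHypothesis) (s : ℝ) (hs : 1 ≤ s) (α : ℕ → ℝ) (m : ℂ) (J : ℕ)
    (hJ : ∀ n j : ℕ, J ≤ j → ‖∑ i ∈ Finset.range j, (walk s α (n + i) - m)‖ ≤ Real.sqrt (j / s) / 400) :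
    ∃ ρ : ℝ, 0 < ρ ∧ ∀ᶠ N : ℕ in atTop, ρ * N ≤ (away s α ρ N : ℝ) := by
  have hs0 : 0 < s := by linarith
  obtain ⟨L0, h⟩ := main RH s hs
  have hlim : Tendsto (fun L : ℕ => Real.sqrt ((L : ℝ) / s) / 400) atTop atTop :=
    (Real.tendsto_sqrt_atTop.comp (tendsto_natCast_atTop_atTop.atTop_div_const hs0)).atTop_div_const (by norm_num)
  obtain ⟨L, hL1, hL2⟩ := ((hlim.eventually_ge_atTop (J * (1 + ‖m‖))).and (eventually_ge_atTop L0)).exists
  obtain ⟨ρ, hρ, N1, hN1⟩ := h L hL2
  refine ⟨ρ, hρ, ?_⟩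
  filter_upwards [eventually_ge_atTop N1, eventually_ge_atTop 1] with N h1 h2
  rcases hN1 N h1 α m with h3 | h3
  · exfalso
    have h4 : loud (walk s α) m L (Real.sqrt (L / s) / 400) N = 0 := by
      unfold loud
      rw [Set.ncard_eq_zero ((Set.finite_lt_nat N).subset fun n hn => hn.1)]
      apply Set.eq_empty_of_forall_notMem
      rintro n ⟨_, j, hj, h5⟩
      rw [← not_le] at h5
      apply h5
      rcases le_total J j with h6 | h6
      · refine (hJ n j h6).trans ?_
        gcongr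
      · refine le_trans ?_ hL1
        refine (norm_sum_le _ _).trans ?_
        have h7 : ∀ i ∈ Finset.range j, ‖walk s α (n + i) - m‖ ≤ 1 + ‖m‖ := by
          intro i _
          refine (norm_sub_le _ _).trans ?_
          have h8 : ‖walk s α (n + i)‖ = 1 := by
            unfold walk
            have := Complex.norm_exp_ofReal_mul_I (2 * Real.pi * ((∑ i ∈ Finset.range (n + i), α i) / s))
            push_cast at this ⊢
            exact this
          rw [h8]
        refine (Finset.sum_le_sum h7).trans ?_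
        rw [Finset.sum_const, Finset.card_range, nsmul_eq_mul]
        have h9 : (j : ℝ) ≤ J := by exact_mod_cast h6
        have h10 := norm_nonneg m
        exact mul_le_mul_of_nonneg_right h9 (by linarith)
    rw [h4, Nat.cast_zero] at h3
    have h5 : (1 : ℝ) ≤ N := by exact_mod_cast h2
    nlinarith
  · exact h3

/-- the pattern given by the nearest half-integers -/
noncomputable def half (j : ℕ) : ℝ := if j = 0 then 0 else (round (2 * d j) : ℝ) / 2

lemma walk_half (n : ℕ) : walk 1 half n = (sgn n : ℂ) := by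
  induction n with
  | zero => simp [walk, sgn]
  | succ n ih =>
    have h1 : walk 1 half (n + 1) = walk 1 half n * Complex.exp (2 * Real.pi * half n * Complex.I) := by
      unfold walk
      rw [← Complex.exp_add]
      congr 1
      rw [Finset.sum_range_succ]
      push_cast
      ring
    rw [h1, ih]
    rcases Nat.eq_zero_or_pos n with h | h
    · subst h
      simp [half, sgn]
    · have h2 : sgn (n + 1) = sgn n * (-1 : ℝ) ^ round (2 * d n) := by
        unfold sgn
        rw [Finset.prod_Ico_succ_top h]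
      rw [h2]
      push_cast
      congr 1
      unfold half
      rw [if_neg (by omega)]
      have h3 : (2 * Real.pi * (((round (2 * d n) : ℝ) / 2 : ℝ) : ℂ) * Complex.I : ℂ) =
          (round (2 * d n) : ℤ) * (Real.pi * Complex.I) := by
        push_cast
        ring
      rw [h3, Complex.exp_int_mul, Complex.exp_pi_mul_I]

lemma parity (RH : RiemannHypothesis)
    (AH : ∀ ε : ℝ, 0 < ε → Tendsto (fun N : ℕ =>
      ({j : ℕ | 1 ≤ j ∧ j ≤ N ∧ ∀ k : ℤ, ε ≤ |d j - k / 2|}.ncard : ℝ) / N) atTop (nhds 0)) :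
    ∃ L0 : ℕ, ∀ L : ℕ, L0 ≤ L → ∃ ρ : ℝ, 0 < ρ ∧ ∀ᶠ N : ℕ in atTop, ∀ m : ℂ,
      ρ * N ≤ (loud (fun n => (sgn n : ℂ)) m L (Real.sqrt L / 400) N : ℝ) := by
  obtain ⟨L0, h⟩ := main RH 1 le_rfl
  refine ⟨L0, fun L hL => ?_⟩
  obtain ⟨ρ, hρ, N1, hN1⟩ := h L hL
  refine ⟨ρ, hρ, ?_⟩
  filter_upwards [eventually_ge_atTop N1, eventually_ge_atTop 1, (AH ρ hρ).eventually (gt_mem_nhds hρ)]
    with N h1 h2 h3 m
  have hN0 : (0 : ℝ) < N := by exact_mod_cast h2
  rw [div_lt_iff₀ hN0] at h3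
  rcases hN1 N h1 half m with h4 | h4
  · have e : walk 1 half = fun n => (sgn n : ℂ) := funext walk_half
    rw [e, div_one] at h4
    exact h4
  · exfalso
    have hle : away 1 half ρ N ≤ {j : ℕ | 1 ≤ j ∧ j ≤ N ∧ ∀ k : ℤ, ρ ≤ |d j - k / 2|}.ncard := by
      refine Set.ncard_le_ncard ?_ ((Set.finite_Iic N).subset fun j hj => hj.2.1)
      rintro j ⟨g1, g2, g3⟩
      refine ⟨g1, g2, fun k => ?_⟩
      have g4 := g3 0
      unfold half at g4
      rw [if_neg (by omega)] at g4
      have g5 := round_le (2 * d j) k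
      have g6 : |d j - ((round (2 * d j) : ℝ) / 2 + 1 * ((0 : ℤ) : ℝ))| = |2 * d j - round (2 * d j)| / 2 := by
        rw [← abs_two (α := ℝ), ← abs_div, abs_two]
        congr 1
        push_cast
        ring
      have g7 : |d j - k / 2| = |2 * d j - k| / 2 := by
        rw [← abs_two (α := ℝ), ← abs_div, abs_two]
        congr 1
        ring
      rw [g6] at g4
      rw [g7]
      linarith
    have hle' : (away 1 half ρ N : ℝ) ≤ ({j : ℕ | 1 ≤ j ∧ j ≤ N ∧ ∀ k : ℤ, ρ ≤ |d j - k / 2|}.ncard : ℝ) := by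
      exact_mod_cast hle
    linarith

/-- On the Riemann hypothesis:

(1) for every `s ≥ 1` there is `L0` such that for every `L ≥ L0` there are `ρ > 0` and `N1` such
that for all `N ≥ N1`, every real sequence `α` and every complex `m`: at least `ρ N` of the `n < N`
have `|∑_{i < j} (walk s α (n + i) - m)| > √(L / s) / 400` for some `j ≤ L`, or at least `ρ N` of the
`1 ≤ j ≤ N` have `|d_j - (α_j + s k)| ≥ ρ` for all integers `k`;

(2) if `s ≥ 1` and, for some `m` and `J`, the sums of `walk s α - m` over all blocks of length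
`j ≥ J` are at most `√(j / s) / 400`, then the second alternative of (1) holds for some `ρ > 0` and
all large `N`;

(3) if for every `ε > 0` the number of `j ≤ N` with `|d_j - k / 2| ≥ ε` for all integers `k` is
`o(N)`, then for every large `L` there is `ρ > 0` such that for all large `N` and every complex `m`
at least `ρ N` of the `n < N` have `|∑_{i < j} (sgn (n + i) - m)| > √L / 400` for some `j ≤ L`. -/
theorem result (RH : RiemannHypothesis) :
    (∀ s : ℝ, 1 ≤ s → ∃ L0 : ℕ, ∀ L : ℕ, L0 ≤ L → ∃ ρ : ℝ, 0 < ρ ∧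
      ∃ N1 : ℕ, ∀ N : ℕ, N1 ≤ N → ∀ (α : ℕ → ℝ) (m : ℂ),
        ρ * N ≤ (loud (walk s α) m L (Real.sqrt (L / s) / 400) N : ℝ) ∨ ρ * N ≤ (away s α ρ N : ℝ)) ∧
    (∀ s : ℝ, 1 ≤ s → ∀ (α : ℕ → ℝ) (m : ℂ) (J : ℕ),
      (∀ n j : ℕ, J ≤ j → ‖∑ i ∈ Finset.range j, (walk s α (n + i) - m)‖ ≤ Real.sqrt (j / s) / 400) →
      ∃ ρ : ℝ, 0 < ρ ∧ ∀ᶠ N : ℕ in atTop, ρ * N ≤ (away s α ρ N : ℝ)) ∧
    ((∀ ε : ℝ, 0 < ε → Tendsto (fun N : ℕ =>
        ({j : ℕ | 1 ≤ j ∧ j ≤ N ∧ ∀ k : ℤ, ε ≤ |d j - k / 2|}.ncard : ℝ) / N) atTop (nhds 0)) →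
      ∃ L0 : ℕ, ∀ L : ℕ, L0 ≤ L → ∃ ρ : ℝ, 0 < ρ ∧ ∀ᶠ N : ℕ in atTop, ∀ m : ℂ,
        ρ * N ≤ (loud (fun n => (sgn n : ℂ)) m L (Real.sqrt L / 400) N : ℝ)) :=
  ⟨fun s hs => main RH s hs, fun s hs α m J hJ => quiet_sequence RH s hs α m J hJ, fun AH => parity RH AH⟩

end Pool.Agent.Results.MP_f0209c_nt.QuietPatterns
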